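import Pool.Agent.Helper99_Eng3.Stmts

/-!
# Squad ENG, part 3: modules OLW (the law of `PΩ`) and MOM (the main theorem)
-/

set_option autoImplicit false

namespace Pool.Agent.Eng.H81

lemma map_eng_iter {G H : Type} [Group G] [Group H] (f : G →* H) (y x : G) (n : ℕ) :
    f ((eng y)^[n] x) = (eng (f y))^[n] (f x) := by
  induction n with
  | zero => rfl
  | succ n ih =>
    rw [Function.iterate_succ_apply', Function.iterate_succ_apply', ← ih]
    simp only [eng, map_mul, map_inv]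

theorem olw (hOCEN : OcenStmt) : OlwStmt := by
  intro F V _ _ _ _ _ Q hND h7 d hL
  obtain ⟨r, hr⟩ := hL
  refine ⟨r + 1, fun x hx y hy => ?_⟩
  have hy' : y ∈ OV Q := Subgroup.commutator_le_self _ hy
  have hx1 : eng y x ∈ OmV Q := by
    have h1 := Subgroup.commutator_mem_commutator ((OV Q).inv_mem hx) ((OV Q).inv_mem hy')
    rw [commutatorElement_def, inv_inv, inv_inv] at h1
    exact h1
  set X : ↥(OmV Q) := ⟨eng y x, hx1⟩ with hX
  set Y : ↥(OmV Q) := ⟨y, hy⟩ with hY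
  have h3 := hr (QuotientGroup.mk X) (QuotientGroup.mk Y)
  have h4 := map_eng_iter (QuotientGroup.mk' (Subgroup.center ↥(OmV Q))) Y X
  have h5 : (QuotientGroup.mk ((eng Y)^[r] X) : POm Q) = QuotientGroup.mk ((eng Y)^[r + d] X) :=
    (h4 r).trans (h3.trans (h4 (r + d)).symm)
  have h6 : ((eng Y)^[r] X)⁻¹ * (eng Y)^[r + d] X ∈ Subgroup.center ↥(OmV Q) := QuotientGroup.eq.1 h5
  obtain ⟨c, hc⟩ := hOCEN F V Q hND h7 ((((eng Y)^[r] X)⁻¹ * (eng Y)^[r + d] X : ↥(OmV Q)) : V ≃ₗ[F] V)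
    (SetLike.coe_mem _) (fun h hh => by
      have h7 := Subgroup.mem_center_iff.1 h6 ⟨h, hh⟩
      exact congrArg (Subtype.val) h7)
  refine ⟨c, fun v => ?_⟩
  have e1 : ∀ n : ℕ, (eng y)^[n + 1] x = (((eng Y)^[n] X : ↥(OmV Q)) : V ≃ₗ[F] V) := by
    intro n
    rw [Function.iterate_succ_apply]
    exact (map_eng_iter (OmV Q).subtype Y X n).symm
  have e2 : r + 1 + d = (r + d) + 1 := by ring
  rw [e2, e1, e1]
  have e3 : (((eng Y)^[r + d] X : ↥(OmV Q)) : V ≃ₗ[F] V) v =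
      (((eng Y)^[r] X : ↥(OmV Q)) : V ≃ₗ[F] V)
        (((((eng Y)^[r] X)⁻¹ * (eng Y)^[r + d] X : ↥(OmV Q)) : V ≃ₗ[F] V) v) := by
    have e4 : (((eng Y)^[r + d] X : ↥(OmV Q)) : V ≃ₗ[F] V) =
        (((eng Y)^[r] X : ↥(OmV Q)) : V ≃ₗ[F] V) *
          ((((eng Y)^[r] X)⁻¹ * (eng Y)^[r + d] X : ↥(OmV Q)) : V ≃ₗ[F] V) := by
      rw [← Subgroup.coe_mul, mul_inv_cancel_left]
    conv_lhs => rw [e4]
    rfl
  rw [e3, hc v, map_smul]

theorem mom (hPD : PdExpStmt) (hLift : LiftStmt) (hOLW : OlwStmt) (hOE1 : Oe1Stmt)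
    (hOEUB : OeubStmt) (hOE2 : Oe2Stmt) (hOTT : OttStmt) (hOODD : OoddStmt)
    (hOTWO : OtwoStmt) : MainOmStmt := by
  intro F V _ _ _ _ _ Q hND h7
  have : Finite V := Module.finite_of_finite F
  have : Finite (V ≃ₗ[F] V) :=
    Finite.of_injective (fun g : V ≃ₗ[F] V => (g : V → V)) DFunLike.coe_injective
  apply hPD (POm Q)
  intro p k hp hk hy d hd hL
  have hO := hOLW F V Q hND h7 d hL
  by_cases hpF : (p : F) = 0
  · have hch : ringChar F = p := by
      have h1 : ringChar F ∣ p := ringChar.dvd hpF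
      rcases (Nat.dvd_prime hp).1 h1 with h | h
      · exact absurd h (CharP.ringChar_ne_one)
      · exact h
    have : CharP F p := ringChar.of_eq hch
    by_cases hp2 : p = 2
    · subst hp2
      exact hOTT F V Q k hND h7 (by exact_mod_cast hpF) hy d hd hO
    · rcases Nat.lt_or_ge 1 k with hk1 | hk1
      · obtain ⟨g, c, hg1, hg2⟩ := hLift ↥(OmV Q) (Subgroup.center ↥(OmV Q)) p k hp hy
        have h2 : p ^ k ∣ p ^ c := by
          rw [← hg1, ← hg2]
          exact orderOf_map_dvd (QuotientGroup.mk' (Subgroup.center ↥(OmV Q))) g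
        have h3 : k ≤ c := (Nat.pow_dvd_pow_iff_le_right hp.one_lt).1 h2
        have h4 : (g : V ≃ₗ[F] V) ∈ OV Q := Subgroup.commutator_le_self _ g.2
        have h5 : orderOf (g : V ≃ₗ[F] V) = p ^ c := by rw [Subgroup.orderOf_coe, hg1]
        have h6 := hOEUB F V Q p c hND hp hp2 (by omega) (g : V ≃ₗ[F] V) h4 h5
        have h8 : p ^ (k - 1) ≤ p ^ (c - 1) := Nat.pow_le_pow_right hp.pos (by omega)
        exact hOE2 F V Q p k hND hp hp2 (by omega) (by omega) d hd hO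
      · have hk2 : k = 1 := by omega
        subst hk2
        rw [pow_one]
        exact hOE1 F V Q p hND hp hp2 (by omega) d hd hO
  · by_cases hp2 : p = 2
    · subst hp2
      exact hOTWO F V Q k hND h7 (by exact_mod_cast hpF) hy d hd hO
    · exact hOODD F V Q p k hND h7 hp hp2 hpF hy d hd hO

end Pool.Agent.Eng.H81
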